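import Pool.Agent.helper22.GS.Spec

/-!
# Project gs: HP
-/

set_option autoImplicit false

namespace Pool.Agent.GS

open Module

noncomputable section

theorem HP : HP_stmt := by
  intro K E _ _ _ r hr hr2 σ h hh0 hh hord M hdet htr j c hM
  set f := algebraMap K E with hf
  set N : Matrix (Fin 2) (Fin 2) E := M.map f with hN
  have hdN : N.det = 1 := by
    have h1 : N.det = f M.det := by
      rw [hN, RingHom.map_det]; rfl
    rw [h1, hdet, map_one]
  have htN : N 0 0 + N 1 1 = 2 + f σ := by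
    have h1 : M 0 0 + M 1 1 = 2 + σ := by rw [← htr, Matrix.trace_fin_two]
    have h2 := congrArg f h1
    rw [map_add, map_add, map_ofNat] at h2
    exact h2
  have hdd : N 0 0 * N 1 1 - N 0 1 * N 1 0 = 1 := by rw [← hdN, Matrix.det_fin_two]
  have hsq : h ^ 2 - (2 + f σ) * h + 1 = 0 := by
    have h1 : (h + h⁻¹) * h = (2 + f σ) * h := by rw [hh]
    rw [add_mul, inv_mul_cancel₀ hh0] at h1
    rw [← h1]; ring
  have hdet0 : (h • (1 : Matrix (Fin 2) (Fin 2) E) - N).det = 0 := by
    rw [Matrix.det_fin_two]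
    simp only [Matrix.sub_apply, Matrix.smul_apply, Matrix.one_apply_eq, smul_eq_mul, mul_one]
    rw [Matrix.one_apply_ne (by decide), Matrix.one_apply_ne (by decide)]
    have : (h - N 0 0) * (h - N 1 1) - (h * 0 - N 0 1) * (h * 0 - N 1 0) =
        h ^ 2 - (N 0 0 + N 1 1) * h + (N 0 0 * N 1 1 - N 0 1 * N 1 0) := by ring
    rw [this, htN, hdd, hsq]
  obtain ⟨v, hv0, hv⟩ := Matrix.exists_mulVec_eq_zero_iff.2 hdet0
  have hev : N.mulVec v = h • v := by
    rw [Matrix.sub_mulVec, Matrix.smul_mulVec, Matrix.one_mulVec, sub_eq_zero] at hv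
    exact hv.symm
  have hpow : ∀ n : ℕ, (N ^ n).mulVec v = h ^ n • v := by
    intro n
    induction n with
    | zero => rw [pow_zero, pow_zero, Matrix.one_mulVec, one_smul]
    | succ n ih =>
      rw [pow_succ', ← Matrix.mulVec_mulVec, ih, Matrix.mulVec_smul, hev, smul_smul, pow_succ]
  have hNj : N ^ j = f c • (1 : Matrix (Fin 2) (Fin 2) E) := by
    have h1 : N ^ j = f.mapMatrix (M ^ j) := by
      rw [map_pow]; rfl
    rw [h1, hM]
    ext a b
    simp only [RingHom.mapMatrix_apply, Matrix.map_apply, Matrix.smul_apply, smul_eq_mul, map_mul]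
    by_cases hab : a = b
    · subst hab; simp
    · simp [Matrix.one_apply_ne hab]
  have hhj : h ^ j = f c := by
    have h1 := hpow j
    rw [hNj, Matrix.smul_mulVec, Matrix.one_mulVec] at h1
    obtain ⟨i, hi⟩ := Function.ne_iff.1 hv0
    have h2 := congrFun h1 i
    simp only [Pi.smul_apply, smul_eq_mul] at h2
    exact (mul_right_cancel₀ hi h2).symm
  have hc : c ^ 2 = 1 := by
    have h1 : (M ^ j).det = 1 := by rw [Matrix.det_pow, hdet, one_pow]
    rw [hM, Matrix.det_smul, Matrix.det_one, mul_one] at h1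
    simpa using h1
  have h2j : h ^ (2 * j) = 1 := by
    rw [mul_comm, pow_mul, hhj, ← map_pow, hc, map_one]
  have h3 : r ∣ 2 * j := hord.trans (orderOf_dvd_of_pow_eq_one h2j)
  rcases (Nat.Prime.dvd_mul hr).1 h3 with h4 | h4
  · exact absurd ((Nat.prime_dvd_prime_iff_eq hr Nat.prime_two).1 h4) hr2
  · exact h4

end

end Pool.Agent.GS
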