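import Pool.Agent.helper22.GS.Spec

/-!
# Project gs: MOB, two orthogonal bases in odd degree, characteristic two
-/

set_option autoImplicit false

namespace Pool.Agent.GS

open Module

noncomputable section

section

variable {F K : Type} [Field F] [Field K] [Algebra F K] [Finite K] [FiniteDimensional F K]

theorem MOB_char (h2 : ringChar F = 2) : CharP F 2 := by
  rw [← h2]; exact ringChar.charP F

theorem MOB_charK (h2 : ringChar F = 2) : CharP K 2 := by
  have := MOB_char h2
  exact charP_of_injective_algebraMap (algebraMap F K).injective 2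

theorem MOB_finF (F K : Type) [Field F] [Field K] [Algebra F K] [Finite K] : Finite F :=
  Finite.of_injective (algebraMap F K) (algebraMap F K).injective

/-- the trace of a square -/
theorem MOB_sq (h2 : ringChar F = 2) (x : K) :
    Algebra.trace F K (x ^ 2) = (Algebra.trace F K x) ^ 2 := by
  have := MOB_charK (K := K) h2
  have : Fact (Nat.Prime 2) := ⟨Nat.prime_two⟩
  apply (algebraMap F K).injective
  rw [RingHom.map_pow, FiniteField.algebraMap_trace_eq_sum_pow F K (x ^ 2),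
    FiniteField.algebraMap_trace_eq_sum_pow F K x, sum_pow_char]
  refine Finset.sum_congr rfl fun i _ => ?_
  rw [← pow_mul, ← pow_mul, mul_comm]

/-- a nonzero vector in the kernel of two functionals -/
theorem MOB_ker (hm : 3 ≤ finrank F K) (f g : K →ₗ[F] F) : ∃ z, z ≠ 0 ∧ f z = 0 ∧ g z = 0 := by
  have h1 : finrank F (F × F) < finrank F K := by
    rw [Module.finrank_prod, Module.finrank_self]; omega
  have h2 := LinearMap.ker_ne_bot_of_finrank_lt (f := f.prod g) h1
  obtain ⟨z, hz, hz0⟩ := (Submodule.ne_bot_iff _).1 h2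
  rw [LinearMap.mem_ker, LinearMap.prod_apply] at hz
  have h3 : f z = 0 ∧ g z = 0 := by
    rw [← Prod.mk_eq_zero]; exact hz
  exact ⟨z, hz0, h3.1, h3.2⟩

/-- the functional `w ↦ tr (c w)` -/
def MOB_t (F : Type) {K : Type} [Field F] [Field K] [Algebra F K] (c : K) : K →ₗ[F] F :=
  (Algebra.trace F K).comp (LinearMap.mulLeft F c)

omit [Finite K] [FiniteDimensional F K] in
theorem MOB_t_apply (c w : K) : MOB_t F c w = Algebra.trace F K (c * w) := rfl

/-- nondegeneracy -/
theorem MOB_nd (hBF : BF_stmt) (c : K) (h : ∀ w, Algebra.trace F K (c * w) = 0) : c = 0 := by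
  have h1 := (hBF (F := F) (K := K)).1 1 one_ne_zero
  apply h1.nd
  intro y
  rw [bf_apply, inv_one, one_mul]
  exact h y

/-- a vector with prescribed values under two independent functionals -/
theorem MOB_dual (hBF : BF_stmt) (a b : K) (ha : a ≠ 0) (hb : b ≠ 0) (hab : ∀ c : F, a ≠ c • b) :
    ∃ w, Algebra.trace F K (a * w) = 1 ∧ Algebra.trace F K (b * w) = 0 := by
  obtain ⟨y, hy⟩ : ∃ y, Algebra.trace F K (b * y) ≠ 0 := by
    by_contra hcon
    push Not at hcon
    exact hb (MOB_nd hBF b hcon)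
  by_contra hcon
  push Not at hcon
  have h1 : ∀ w, Algebra.trace F K (b * w) = 0 → Algebra.trace F K (a * w) = 0 := by
    intro w hw
    by_contra h0
    apply hcon ((Algebra.trace F K (a * w))⁻¹ • w)
    · rw [mul_smul_comm, map_smul, smul_eq_mul, inv_mul_cancel₀ h0]
    · rw [mul_smul_comm, map_smul, hw, smul_zero]
  set c := (Algebra.trace F K (b * y))⁻¹ * Algebra.trace F K (a * y) with hc
  apply hab c
  have h2 : a - c • b = 0 := by
    apply MOB_nd (F := F) hBF
    intro w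
    have h3 := h1 (w - ((Algebra.trace F K (b * y))⁻¹ * Algebra.trace F K (b * w)) • y) (by
      rw [mul_sub, map_sub, mul_smul_comm, map_smul, smul_eq_mul]
      field_simp
      ring)
    rw [mul_sub, map_sub, mul_smul_comm, map_smul, smul_eq_mul, sub_eq_zero] at h3
    rw [sub_mul, map_sub, h3, smul_mul_assoc, map_smul, smul_eq_mul, hc]
    ring
  exact sub_eq_zero.1 h2

/-- the two vectors -/
theorem MOB_vec (hBF : BF_stmt) (hm : 3 ≤ finrank F K)
    (h1 : Algebra.trace F K 1 = 1) (e : K) (he : e ≠ 0) :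
    ∃ u w : K, Algebra.trace F K u = 1 ∧ u ≠ 1 ∧ Algebra.trace F K (e⁻¹ * w) = 1 ∧ w ≠ e ∧
      Algebra.trace F K (u * w) = 0 := by
  have he' : e⁻¹ ≠ 0 := inv_ne_zero he
  obtain ⟨z1, hz1, ht1, -⟩ := MOB_ker hm (Algebra.trace F K) 0
  obtain ⟨c, hc⟩ : ∃ c, Algebra.trace F K (z1 * c) ≠ 0 := by
    by_contra hcon
    push Not at hcon
    exact hz1 (MOB_nd hBF z1 hcon)
  obtain ⟨z2, hz2, ht2, hg2⟩ := MOB_ker hm (Algebra.trace F K) (MOB_t F c)
  rw [MOB_t_apply] at hg2
  have hne : z1 ≠ z2 := by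
    intro h
    rw [h, mul_comm] at hc
    exact hc hg2
  have hu : ∃ u : K, Algebra.trace F K u = 1 ∧ u ≠ 1 ∧ ∀ a : F, u ≠ a • e⁻¹ := by
    by_cases hA : ∀ a : F, 1 + z1 ≠ a • e⁻¹
    · refine ⟨1 + z1, by rw [map_add, h1, ht1, add_zero], ?_, hA⟩
      intro h
      exact hz1 (by simpa using h)
    · push Not at hA
      obtain ⟨a, ha⟩ := hA
      refine ⟨1 + z2, by rw [map_add, h1, ht2, add_zero], ?_, ?_⟩
      · intro h
        exact hz2 (by simpa using h)
      · intro b hb
        have e1 := congrArg (Algebra.trace F K) ha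
        have e2 := congrArg (Algebra.trace F K) hb
        rw [map_add, h1, ht1, add_zero, map_smul, smul_eq_mul] at e1
        rw [map_add, h1, ht2, add_zero, map_smul, smul_eq_mul] at e2
        have h5 : Algebra.trace F K e⁻¹ ≠ 0 := by
          intro h; rw [h, mul_zero] at e1; exact one_ne_zero e1
        have h6 : a = b := mul_right_cancel₀ h5 (e1.symm.trans e2)
        apply hne
        have h7 : (1 : K) + z1 = 1 + z2 := by rw [ha, hb, h6]
        exact add_left_cancel h7
  obtain ⟨u, hu1, hu2, hu3⟩ := hu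
  have hu0 : u ≠ 0 := by
    intro h; rw [h, map_zero] at hu1; exact zero_ne_one hu1
  have hind : ∀ c : F, e⁻¹ ≠ c • u := by
    intro c hcu
    have hc0 : c ≠ 0 := by
      intro h; rw [h, zero_smul] at hcu; exact he' hcu
    apply hu3 c⁻¹
    rw [hcu, smul_smul, inv_mul_cancel₀ hc0, one_smul]
  obtain ⟨w1, hw1, hw1'⟩ := MOB_dual hBF e⁻¹ u he' hu0 hind
  obtain ⟨w2, hw2, hw2a, hw2b⟩ := MOB_ker hm (MOB_t F e⁻¹) (MOB_t F u)
  rw [MOB_t_apply] at hw2a hw2b
  by_cases hw : w1 = e
  · refine ⟨u, w1 + w2, hu1, hu2, ?_, ?_, ?_⟩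
    · rw [mul_add, map_add, hw1, hw2a, add_zero]
    · rw [hw]
      intro h
      exact hw2 (by simpa using h)
    · rw [mul_add, map_add, hw1', hw2b, add_zero]
  · exact ⟨u, w1, hu1, hu2, hw1, hw, hw1'⟩

/-- the orthogonal basis through a vector -/
theorem MOB_basis (hBF : BF_stmt) (hOC : OC_stmt) (h2 : ringChar F = 2) (k : ℕ)
    (hk : finrank F K = 2 * k + 1) (h1 : Algebra.trace F K 1 = 1) (e : K) (he : e ≠ 0) (τ : F)
    (hτ : τ ≠ 0) (u0 : K) (hu0 : Algebra.trace F K (e⁻¹ * u0) = 1) (hue : u0 ≠ e) :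
    ∃ u : Basis (Unit ⊕ (Fin k ⊕ Fin k)) F K, Orth (bf F K (e ^ 2)) u (nrm τ 1) ∧
      u (.inl ()) = u0 := by
  have := MOB_finF F K
  have := MOB_char h2
  have hα : e ^ 2 ≠ 0 := pow_ne_zero 2 he
  have hS := (hBF (F := F) (K := K)).1 (e ^ 2) hα
  have hsq : ∀ x : K, bf F K (e ^ 2) x x = (bf F K (e ^ 2) x e) ^ 2 := by
    intro x
    rw [bf_apply, bf_apply, ← MOB_sq h2]
    congr 1
    field_simp
  have hbe : ∀ x : K, bf F K (e ^ 2) x e = Algebra.trace F K (e⁻¹ * x) := by
    intro x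
    rw [bf_apply]
    congr 1
    field_simp
  have hee : bf F K (e ^ 2) e e = 1 := by
    rw [hbe, inv_mul_cancel₀ he, h1]
  have huu : bf F K (e ^ 2) u0 u0 = 1 := by
    rw [hsq, hbe, hu0, one_pow]
  have hex : ∃ x, bf F K (e ^ 2) u0 x = 0 ∧ bf F K (e ^ 2) x x ≠ 0 := by
    by_contra hcon
    push Not at hcon
    have h3 : ∀ x, bf F K (e ^ 2) u0 x = 0 → bf F K (e ^ 2) x e = 0 := by
      intro x hx
      have h4 := hcon x hx
      rw [hsq] at h4
      exact pow_eq_zero_iff (two_ne_zero) |>.1 h4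
    have h4 : e - (bf F K (e ^ 2) u0 e) • u0 = 0 := by
      apply hS.nd
      intro y
      have h5 := h3 (y - (bf F K (e ^ 2) u0 y) • u0) (by
        rw [map_sub, map_smul, huu, smul_eq_mul, mul_one, sub_self])
      rw [map_sub, map_smul, LinearMap.sub_apply, LinearMap.smul_apply, smul_eq_mul,
        sub_eq_zero] at h5
      rw [map_sub, map_smul, LinearMap.sub_apply, LinearMap.smul_apply, smul_eq_mul,
        hS.symm e y, h5]
      ring
    have h5 : bf F K (e ^ 2) u0 e = 1 := by rw [hbe, hu0]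
    rw [h5, one_smul, sub_eq_zero] at h4
    exact hue h4.symm
  have hcard : Fintype.card (Unit ⊕ (Fin k ⊕ Fin k)) = finrank F K := by
    rw [hk, Fintype.card_sum, Fintype.card_sum, Fintype.card_fin]
    simp; ring
  have β : Basis (Unit ⊕ (Fin k ⊕ Fin k)) F K :=
    (Module.finBasis F K).reindex (Fintype.equivOfCardEq (by rw [hcard, Fintype.card_fin]))
  obtain ⟨u, hu, hui⟩ := hOC (bf F K (e ^ 2)) h2 hS β (.inl ()) u0 huu hex
  obtain ⟨s, hs⟩ := FiniteField.isSquare_of_char_two h2 (-τ)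
  have hs0 : s ≠ 0 := by
    intro h
    rw [h, mul_zero] at hs
    exact hτ (neg_eq_zero.1 hs)
  let cf : Unit ⊕ (Fin k ⊕ Fin k) → Fˣ := fun i =>
    match i with
    | .inl _ => 1
    | .inr (.inl _) => 1
    | .inr (.inr _) => Units.mk0 s hs0
  refine ⟨u.unitsSMul cf, ?_, ?_⟩
  · intro i j
    rw [Basis.unitsSMul_apply, Basis.unitsSMul_apply, Units.smul_def, Units.smul_def, map_smul,
      map_smul, LinearMap.smul_apply, hu i j]
    by_cases hij : i = j
    · subst hij
      rw [if_pos rfl, if_pos rfl]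
      rcases i with i | i | i
      · simp [cf, nrm]
      · simp [cf, nrm]
      · simp [cf, nrm, hs]
    · rw [if_neg hij, if_neg hij, smul_zero, smul_zero]
  · rw [Basis.unitsSMul_apply, hui]
    simp [cf]

end

theorem MOB (hBF : BF_stmt) (hOC : OC_stmt) : MOB_stmt := by
  intro F K _ _ _ _ _ k h2 hk1 hk σ τ hσ hτ
  have := MOB_finF F K
  have := MOB_char h2
  have := MOB_charK (K := K) h2
  have h2K : ringChar K = 2 := ringChar.eq K 2 ▸ rfl
  have h1 : Algebra.trace F K 1 = 1 := by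
    have h3 : Algebra.trace F K (algebraMap F K 1) = finrank F K • (1 : F) :=
      Algebra.trace_algebraMap 1
    rw [map_one] at h3
    rw [h3, hk, add_smul, mul_smul, one_smul, two_smul]
    rw [CharTwo.add_self_eq_zero, zero_add]
  obtain ⟨e, he⟩ := FiniteField.isSquare_of_char_two h2K σ
  have he0 : e ≠ 0 := by
    intro h; rw [h, mul_zero] at he; exact hσ he
  obtain ⟨u0, w0, hu0, hu1, hw0, hwe, huw⟩ := MOB_vec hBF (by omega) h1 e he0
  obtain ⟨u, hu, hui⟩ := MOB_basis hBF hOC h2 k hk h1 1 one_ne_zero τ hτ u0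
    (by rw [inv_one, one_mul]; exact hu0) hu1
  obtain ⟨w, hw, hwi⟩ := MOB_basis hBF hOC h2 k hk h1 e he0 τ hτ w0 hw0 hwe
  refine ⟨1 ^ 2, e ^ 2, 1, 1, u, w, ?_, pow_ne_zero 2 he0, one_ne_zero, one_ne_zero, ?_, hu, hw,
    FiniteField.isSquare_of_char_two h2 _, ?_⟩
  · rw [one_pow]; exact one_ne_zero
  · rw [one_pow, one_mul, he]; ring
  · rw [hui, hwi]; exact huw

end

end Pool.Agent.GS
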