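import Pool.Agent.helper22.GS.Spec

/-!
# Project gs: TL, lists of transvections in `K × K`
-/

set_option autoImplicit false

namespace Pool.Agent.GS

open Module

noncomputable section

theorem TL : TL_stmt := by
  intro F K _ _ _ _ _ hB L a b
  refine ⟨?_, ?_⟩
  · induction L with
    | nil => simp
    | cons t L ih =>
      rw [List.map_cons, List.prod_cons, Equiv.Perm.mul_apply, ih, tv_apply hB, List.map_cons,
        List.sum_cons, B0_apply]
      simp only [mul_zero, zero_sub, map_neg, mul_neg]
      rw [Prod.smul_mk, Prod.mk_add_mk, neg_smul, smul_zero, add_zero]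
      congr 1
      abel
  · induction L with
    | nil => simp
    | cons t L ih =>
      rw [List.map_cons, List.prod_cons, Equiv.Perm.mul_apply, ih, tv_apply hB, List.map_cons,
        List.sum_cons, B0_apply]
      simp only [mul_zero, sub_zero]
      rw [Prod.smul_mk, Prod.mk_add_mk, smul_zero, add_zero]
      congr 1
      abel

end

end Pool.Agent.GS
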