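import Pool.Agent.helper22.GS.Spec

/-!
# Project gs: DU, dual vectors
-/

set_option autoImplicit false

namespace Pool.Agent.GS

open Module

noncomputable section

theorem DU : DU_stmt := by
  intro F V ι _ _ _ _ _ B hB u hu c
  have hinj : Function.Injective (B.flip : V →ₗ[F] (V →ₗ[F] F)) := by
    rw [injective_iff_map_eq_zero]
    intro v hv
    apply hB.nd
    intro w
    rw [hB.neg v w]
    have h1 : B.flip v w = 0 := by rw [hv]; rfl
    have h2 : B.flip v w = B w v := rfl
    rw [← h2, h1, neg_zero]
  have hfin : finrank F V = finrank F (V →ₗ[F] F) := (Subspace.dual_finrank_eq (K := F) (V := V)).symm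
  have hsurj : Function.Surjective (B.flip : V →ₗ[F] (V →ₗ[F] F)) :=
    (LinearMap.injective_iff_surjective_of_finrank_eq_finrank hfin).1 hinj
  obtain ⟨φ, hφ⟩ := LinearMap.exists_extend ((Basis.span hu).constr F c)
  obtain ⟨v, hv⟩ := hsurj φ
  refine ⟨v, fun i => ?_⟩
  have h2 : B (u i) v = φ (u i) := by rw [← hv]; rfl
  rw [h2]
  have h3 : (φ ∘ₗ (Submodule.span F (Set.range u)).subtype) (Basis.span hu i) = c i := by
    rw [hφ, Basis.constr_basis]
  have h4 : ((Basis.span hu i : Submodule.span F (Set.range u)) : V) = u i :=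
    congrArg Subtype.val (Basis.span_apply hu i)
  rw [LinearMap.comp_apply, Submodule.subtype_apply, h4] at h3
  exact h3

end

end Pool.Agent.GS
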